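import Pool.Agent.V1198.BLQuot

/-!
# The `ℓ_∞`-sum of two projective Banach lattices with topological order units need not be projective

`ℝ` and `ℓ_1` are projective and have topological order units, but `ℝ ⊕_∞ ℓ_1` is not projective:
the inclusion of `ℝ ⊕_∞ ℓ_1` into the space `Y` of pairs `(c, β)`, `β ∈ c_0`, has no lift of norm at
most `3/2` along the quotient map `(α, β) ↦ (lim α, β)` defined on the pairs of a convergent
sequence `α` and a null sequence `β` with the norm `sup_k (|α_k| + |β_k|)`.
-/

set_option autoImplicit false

open Pool.Agent.V1198.BL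

namespace Pool.Agent.Results.MP_2139d9_an.NotProjective

theorem not_projective : ¬ Projective (prodLat realLat ellOne) := by
  intro h
  obtain ⟨S, h1, h2, h3⟩ := h (latX 0) latY (pMap 0) (pMap_isQuot 0) TMap TMap_isLatHom (1 / 2)
    (by norm_num)
  refine no_lift 0 ⟨S, h1, h2, h3.trans ?_⟩
  have := norm_TMap_le
  linarith

/-- **Result.** There are two projective Banach lattices with topological order units whose
`ℓ_∞`-sum is not projective. -/
theorem result : ∃ P₁ P₂ : BLat, Projective P₁ ∧ Projective P₂ ∧ (∃ e : P₁, IsTopOrderUnit e) ∧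
    (∃ e : P₂, IsTopOrderUnit e) ∧ ¬ Projective (prodLat P₁ P₂) :=
  ⟨realLat, ellOne, real_projective, ellOne_projective, ⟨(1 : ℝ), real_unit⟩, ellOne_unit,
    not_projective⟩

end Pool.Agent.Results.MP_2139d9_an.NotProjective
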